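import Pool.Agent.Helper25.TX.SsPt
import Pool.Agent.Helper49.SO.PrB
import Pool.Agent.Helper78.SG.MV

/-!
# OP, block O3: the prime powers which are not primes

The sum over the prime powers `n`, no primes, of `Λ(n) / (√n log n) (1 - log n/X)² sin (y log n)`: the small `n` are
differentiated, the large `n` are bounded by their mean square.
-/

set_option autoImplicit false
open MeasureTheory Set Filter Topology
open Pool.Agent.Helper49.SO.PB (pc pc_bd pc_zero)

namespace Pool.Agent.Helper93.OP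

/-- A part of the sum. -/
noncomputable def Hn (X : ℝ) (A : Finset ℕ) (y : ℝ) : ℝ := ∑ n ∈ A, pc X n * Real.sin (y * Real.log n)

/-- The numbers up to `exp X` which are no primes. -/
noncomputable def Snp (X : ℝ) : Finset ℕ := (Finset.range (⌊Real.exp X⌋₊ + 1)).filter fun n => ¬ n.Prime

theorem pc_log {X : ℝ} (hX : 0 < X) {n : ℕ} (hn : n ∈ Finset.range (⌊Real.exp X⌋₊ + 1)) :
    pc X n * Real.log n ≤ ArithmeticFunction.vonMangoldt n / √n := by
  have hV0 : 0 ≤ ArithmeticFunction.vonMangoldt n := ArithmeticFunction.vonMangoldt_nonneg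
  rcases Nat.lt_or_ge 1 n with h | h
  · have hn1 : (1:ℝ) < n := by exact_mod_cast h
    have hl : 0 < Real.log n := Real.log_pos hn1
    obtain ⟨_, _, h3⟩ := pc_bd hX hn
    have h1 : 0 ≤ Real.log n / X := by positivity
    have h2 : Real.log n / X ≤ 1 := (div_le_one hX).2 h3
    have h4 : (1 - Real.log n / X) ^ 2 ≤ 1 := by nlinarith
    have h5 : 0 < √(n:ℝ) := Real.sqrt_pos.2 (by linarith)
    have e : pc X n * Real.log n = ArithmeticFunction.vonMangoldt n / √n * (1 - Real.log n / X) ^ 2 := by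
      unfold pc
      field_simp
    rw [e]
    have h6 : 0 ≤ ArithmeticFunction.vonMangoldt n / √n := by positivity
    calc _ ≤ ArithmeticFunction.vonMangoldt n / √n * 1 := mul_le_mul_of_nonneg_left h4 h6
      _ = _ := mul_one _
  · rw [pc_zero h, zero_mul]
    positivity

/-- the square of a coefficient, large `n` -/
theorem pc_sq {X : ℝ} (hX : 0 < X) {n K : ℕ} (hK : 1 ≤ K) (hn : n ∈ Finset.range (⌊Real.exp X⌋₊ + 1)) (hKn : K < n) :
    pc X n ^ 2 ≤ 2 / √K * (ArithmeticFunction.vonMangoldt n / √n) := by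
  have hV0 : 0 ≤ ArithmeticFunction.vonMangoldt n := ArithmeticFunction.vonMangoldt_nonneg
  have hK0 : (1:ℝ) ≤ K := by exact_mod_cast hK
  have hn2 : (2:ℝ) ≤ n := by exact_mod_cast (show 2 ≤ n by omega)
  have hl : 1 / 2 ≤ Real.log n := by
    have h3 := Real.log_two_gt_d9
    have h4 := Real.log_le_log (by norm_num) hn2
    linarith
  obtain ⟨h0, _, h3⟩ := pc_bd hX hn
  have h1 : 0 ≤ Real.log n / X := by positivity
  have h2 : Real.log n / X ≤ 1 := (div_le_one hX).2 h3
  have h4 : (1 - Real.log n / X) ^ 2 ≤ 1 := by nlinarith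
  have hs : 0 < √(n:ℝ) := Real.sqrt_pos.2 (by linarith)
  have hsK : 0 < √(K:ℝ) := Real.sqrt_pos.2 (by linarith)
  have hV : ArithmeticFunction.vonMangoldt n ≤ Real.log n := ArithmeticFunction.vonMangoldt_le_log
  have a1 : pc X n ≤ 1 / √K := by
    have b1 : pc X n ≤ ArithmeticFunction.vonMangoldt n / (√n * Real.log n) := by
      unfold pc
      have b2 : 0 ≤ ArithmeticFunction.vonMangoldt n / (√n * Real.log n) := by positivity
      calc _ ≤ ArithmeticFunction.vonMangoldt n / (√n * Real.log n) * 1 := mul_le_mul_of_nonneg_left h4 b2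
        _ = _ := mul_one _
    have b3 : ArithmeticFunction.vonMangoldt n / (√n * Real.log n) ≤ 1 / √n := by
      rw [div_le_div_iff₀ (by positivity) hs]
      nlinarith
    refine b1.trans (b3.trans ?_)
    apply one_div_le_one_div_of_le hsK
    exact Real.sqrt_le_sqrt (by exact_mod_cast hKn.le)
  have a2 : pc X n ≤ 2 * (ArithmeticFunction.vonMangoldt n / √n) := by
    have b1 := pc_log hX hn
    nlinarith
  calc pc X n ^ 2 = pc X n * pc X n := sq _
    _ ≤ 1 / √K * (2 * (ArithmeticFunction.vonMangoldt n / √n)) := mul_le_mul a1 a2 h0 (by positivity)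
    _ = _ := by ring

/-- differentiation -/
theorem diff_le {X : ℝ} (hX : 0 < X) {A : Finset ℕ} (hA : A ⊆ Finset.range (⌊Real.exp X⌋₊ + 1)) (y₁ y₂ : ℝ) :
    |Hn X A y₂ - Hn X A y₁| ≤ |y₂ - y₁| * ∑ n ∈ A, ArithmeticFunction.vonMangoldt n / √n := by
  unfold Hn
  rw [← Finset.sum_sub_distrib, Finset.mul_sum]
  refine (Finset.abs_sum_le_sum_abs _ _).trans (Finset.sum_le_sum fun n hn => ?_)
  obtain ⟨h0, _, _⟩ := pc_bd hX (hA hn)
  have h1 := pc_log hX (hA hn)
  have hl : 0 ≤ Real.log n := Real.log_natCast_nonneg n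
  have h2 : |Real.sin (y₂ * Real.log n) - Real.sin (y₁ * Real.log n)| ≤ |y₂ - y₁| * Real.log n := by
    have := Real.lipschitzWith_sin.dist_le_mul (y₂ * Real.log n) (y₁ * Real.log n)
    rw [Real.dist_eq, Real.dist_eq, NNReal.coe_one, one_mul, ← sub_mul, abs_mul, abs_of_nonneg hl] at this
    exact this
  rw [← mul_sub, abs_mul, abs_of_nonneg h0]
  calc pc X n * |Real.sin (y₂ * Real.log n) - Real.sin (y₁ * Real.log n)| ≤ pc X n * (|y₂ - y₁| * Real.log n) :=
        mul_le_mul_of_nonneg_left h2 h0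
    _ = |y₂ - y₁| * (pc X n * Real.log n) := by ring
    _ ≤ _ := mul_le_mul_of_nonneg_left h1 (abs_nonneg _)

theorem Snp_sub (X : ℝ) : Snp X ⊆ Finset.range (⌊Real.exp X⌋₊ + 1) := Finset.filter_subset _ _

theorem term_nonneg (n : ℕ) : 0 ≤ ArithmeticFunction.vonMangoldt n / √(n:ℝ) := by
  have hV0 : 0 ≤ ArithmeticFunction.vonMangoldt n := ArithmeticFunction.vonMangoldt_nonneg
  positivity

/-- all `n` -/
theorem all_le {X : ℝ} (hX : 0 < X) {A : Finset ℕ} (hA : A ⊆ Snp X) :
    ∑ n ∈ A, ArithmeticFunction.vonMangoldt n / √n ≤ 4 * (X + 6) := by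
  have hN1 : 1 ≤ ⌊Real.exp X⌋₊ := by
    rw [Nat.one_le_floor_iff]
    exact Real.one_le_exp hX.le
  have h1 := Pool.Agent.Helper25.TX.np_le ⌊Real.exp X⌋₊ hN1
  have h2 : Real.log ⌊Real.exp X⌋₊ ≤ X := by
    rw [Real.log_le_iff_le_exp (by exact_mod_cast hN1)]
    exact Nat.floor_le (Real.exp_pos X).le
  refine (Finset.sum_le_sum_of_subset_of_nonneg hA fun n _ _ => term_nonneg n).trans (h1.trans ?_)
  linarith

/-- small `n` -/
theorem small_le {X : ℝ} {K : ℕ} (hK : 1 ≤ K) :
    ∑ n ∈ (Snp X).filter (fun n => n ≤ K), ArithmeticFunction.vonMangoldt n / √n ≤ 4 * (Real.log K + 6) := by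
  refine le_trans (Finset.sum_le_sum_of_subset_of_nonneg ?_ fun n _ _ => term_nonneg n)
    (Pool.Agent.Helper25.TX.np_le K hK)
  intro n hn
  unfold Snp at hn
  simp only [Finset.mem_filter, Finset.mem_range] at hn ⊢
  exact ⟨by omega, hn.1.2⟩

/-- large `n`: the mean square -/
theorem sq_int {X : ℝ} (hX : 0 < X) {K : ℕ} (hK : 1 ≤ K) {a b : ℝ} (hab : a ≤ b) :
    ∫ t in a..b, Hn X ((Snp X).filter fun n => ¬ n ≤ K) t ^ 2 ≤
      (b - a + 20 * Real.exp X * (1 + X)) * (8 * (X + 6) / √K) := by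
  classical
  set N := ⌊Real.exp X⌋₊ with hN
  have hN1 : 1 ≤ N := by
    rw [hN, Nat.one_le_floor_iff]
    exact Real.one_le_exp hX.le
  have hNX : (N:ℝ) ≤ Real.exp X := Nat.floor_le (Real.exp_pos X).le
  have hlN : Real.log N ≤ X := by
    rw [Real.log_le_iff_le_exp (by exact_mod_cast hN1)]
    exact hNX
  have hlN0 : 0 ≤ Real.log N := Real.log_natCast_nonneg N
  set A := (Snp X).filter fun n => ¬ n ≤ K with hA
  have hAS : A ⊆ Snp X := Finset.filter_subset _ _
  have hAR : A ⊆ Finset.range (N + 1) := hAS.trans (Snp_sub X)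
  set c : ℕ → ℝ := fun n => if n ∈ A then pc X n else 0 with hc
  have hc0 : c 0 = 0 := by
    simp only [hc]
    split_ifs
    · exact pc_zero (by norm_num)
    · rfl
  have hmv := Pool.Agent.Helper78.SG.mv_cplx hN1 c hc0 hab
  have hH : ∀ t : ℝ, Hn X A t = ∑ n ∈ Finset.range (N + 1), c n * Real.sin (Real.log n * t) := by
    intro t
    unfold Hn
    rw [← Finset.sum_subset hAR]
    · refine Finset.sum_congr rfl fun n hn => ?_
      simp only [hc, if_pos hn]
      rw [mul_comm t]
    · intro n _ hn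
      simp only [hc, if_neg hn, zero_mul]
  have hcs : Continuous fun t : ℝ => (∑ n ∈ Finset.range (N + 1), c n * Real.cos (Real.log n * t)) ^ 2 := by fun_prop
  have hsn : Continuous fun t : ℝ => (∑ n ∈ Finset.range (N + 1), c n * Real.sin (Real.log n * t)) ^ 2 := by fun_prop
  have h1 : ∫ t in a..b, Hn X A t ^ 2 ≤ ∫ t in a..b, ((∑ n ∈ Finset.range (N + 1), c n * Real.cos (Real.log n * t)) ^ 2 +
        (∑ n ∈ Finset.range (N + 1), c n * Real.sin (Real.log n * t)) ^ 2) := by
    simp only [hH]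
    apply intervalIntegral.integral_mono_on hab (hsn.intervalIntegrable _ _) ((hcs.add hsn).intervalIntegrable _ _)
    intro t _
    have := sq_nonneg (∑ n ∈ Finset.range (N + 1), c n * Real.cos (Real.log n * t))
    simp only [Pi.add_apply]
    linarith
  have hS : ∑ n ∈ Finset.range (N + 1), c n ^ 2 ≤ 8 * (X + 6) / √K := by
    have e : ∑ n ∈ Finset.range (N + 1), c n ^ 2 = ∑ n ∈ A, pc X n ^ 2 := by
      rw [← Finset.sum_subset hAR]
      · refine Finset.sum_congr rfl fun n hn => ?_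
        simp only [hc, if_pos hn]
      · intro n _ hn
        simp only [hc, if_neg hn]
        norm_num
    rw [e]
    calc ∑ n ∈ A, pc X n ^ 2 ≤ ∑ n ∈ A, 2 / √K * (ArithmeticFunction.vonMangoldt n / √n) := by
          refine Finset.sum_le_sum fun n hn => pc_sq hX hK (hAR hn) ?_
          rw [hA, Finset.mem_filter] at hn
          omega
      _ = 2 / √K * ∑ n ∈ A, ArithmeticFunction.vonMangoldt n / √n := by rw [Finset.mul_sum]
      _ ≤ 2 / √K * (4 * (X + 6)) := mul_le_mul_of_nonneg_left (all_le hX hAS) (by positivity)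
      _ = _ := by ring
  have hS0 : 0 ≤ ∑ n ∈ Finset.range (N + 1), c n ^ 2 := Finset.sum_nonneg fun n _ => sq_nonneg _
  refine h1.trans (hmv.trans ?_)
  apply mul_le_mul _ hS hS0
  · have := Real.exp_pos X
    have : 0 ≤ b - a := by linarith
    positivity
  · have : 20 * (N:ℝ) * (1 + Real.log N) ≤ 20 * Real.exp X * (1 + X) := by
      have := Real.exp_pos X
      gcongr
    linarith

end Pool.Agent.Helper93.OP
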