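import Pool.Agent.Helper62.OP.Defs
import Pool.Agent.Helper93.OP.Np
import Pool.Agent.Helper57.UG.MmA
import Pool.Agent.Helper69.UG.NxDev
import Pool.Agent.Helper82.NR.Thick

/-!
# OP, block O3: the main term and the prime side of the integrated explicit formula
-/

set_option autoImplicit false
open MeasureTheory Set Filter Topology
open Pool.Agent.Helper57.Zeta Pool.Agent.Helper57.LH Pool.Agent.Helper57.ED
open Pool.Agent.Helper54.LG (za zb qk SS MM)
open Pool.Agent.Helper93.UG (zc sp)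
open Pool.Agent.Helper69.UG (XX NX near far)
open Pool.Agent.Helper57.TX (QX DP rs)
open Pool.Agent.Helper49.SO (Pr)
open Pool.Agent.Helper49.SO.PB (pc pc_bd pc_zero)
open Pool.Agent.Helper62.OP (Rng Ms Xo Pp pr)

namespace Pool.Agent.Helper93.OP

theorem Hn_cont (X : ℝ) (A : Finset ℕ) : Continuous (Hn X A) := by
  unfold Hn
  fun_prop

/-- The exceptional set of the large prime powers. -/
theorem exc {X T η : ℝ} {K : ℕ} (hX : 1 ≤ X) (hK : 1 ≤ K) (hT : 32 ≤ T) (hη : 0 < η) (hη1 : η ≤ 1) :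
    volume {t : ℝ | t ∈ Icc T (2 * T) ∧ ∃ u, |u - t| ≤ 7 ∧ η < |Hn X ((Snp X).filter fun n => ¬ n ≤ K) u|} ≤
      ENNReal.ofReal (2048 * (X + 6) ^ 2 / (η ^ 3 * √K) * (4 * T + 20 * Real.exp X * (1 + X))) := by
  have hX0 : 0 < X := by linarith
  obtain ⟨A, hA⟩ : ∃ A, A = (Snp X).filter fun n => ¬ n ≤ K := ⟨_, rfl⟩
  have hAS : A ⊆ Snp X := by rw [hA]; exact Finset.filter_subset _ _
  have hAR := hAS.trans (Snp_sub X)
  rw [← hA]
  have hc := Hn_cont X A
  have hK0 : (0:ℝ) < √K := Real.sqrt_pos.2 (by exact_mod_cast hK)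
  have hlip : ∀ y z, |Hn X A z - Hn X A y| ≤ |z - y| * (4 * (X + 6)) := fun y z =>
    (diff_le hX0 hAR y z).trans (mul_le_mul_of_nonneg_left (all_le hX0 hAS) (abs_nonneg _))
  obtain ⟨δ, hδ⟩ : ∃ δ, δ = η / (8 * (X + 6)) := ⟨_, rfl⟩
  have hδ0 : 0 < δ := by rw [hδ]; positivity
  have hδ1 : δ ≤ 1 := by
    rw [hδ, div_le_one (by positivity)]
    linarith
  have hv : 0 < δ * η ^ 2 / 2 := by positivity
  have key := Pool.Agent.Helper82.NR.thick_markov (g := fun u => Hn X A u ^ 2) (hc.pow 2) (fun t => sq_nonneg _)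
    (T := T) (s := 8) (v := δ * η ^ 2 / 2) (by norm_num) (by linarith) hv
  have hsub : {t : ℝ | t ∈ Icc T (2 * T) ∧ ∃ u, |u - t| ≤ 7 ∧ η < |Hn X A u|} ⊆
      {t : ℝ | t ∈ Icc (T / 2) (3 * T) ∧ δ * η ^ 2 / 2 ≤ ∫ u in (t - 8)..(t + 8), Hn X A u ^ 2} := by
    rintro t ⟨ht, u, hu, hHu⟩
    refine ⟨⟨by linarith [ht.1], by linarith [ht.2]⟩, ?_⟩
    obtain ⟨hu1, hu2⟩ := abs_le.1 hu
    have hi : ∀ a b : ℝ, IntervalIntegrable (fun u => Hn X A u ^ 2) volume a b := fun a b =>
      (hc.pow 2).intervalIntegrable a b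
    have h1 : ∫ w in (u - δ)..(u + δ), Hn X A w ^ 2 ≤ ∫ w in (t - 8)..(t + 8), Hn X A w ^ 2 :=
      intervalIntegral.integral_mono_interval (by linarith) (by linarith) (by linarith)
        (Eventually.of_forall fun w => sq_nonneg _) (hi _ _)
    have h2 : ∫ w in (u - δ)..(u + δ), (η / 2) ^ 2 ≤ ∫ w in (u - δ)..(u + δ), Hn X A w ^ 2 := by
      apply intervalIntegral.integral_mono_on (by linarith) (by simp) (hi _ _)
      intro w hw
      have h3 := hlip w u
      have h4 : |u - w| ≤ δ := abs_le.2 ⟨by linarith [hw.2], by linarith [hw.1]⟩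
      have h5 : |u - w| * (4 * (X + 6)) ≤ η / 2 := by
        calc |u - w| * (4 * (X + 6)) ≤ δ * (4 * (X + 6)) := mul_le_mul_of_nonneg_right h4 (by positivity)
          _ = η / 2 := by rw [hδ]; field_simp; ring
      have h6 : |Hn X A u| ≤ |Hn X A u - Hn X A w| + |Hn X A w| := by
        calc |Hn X A u| = |(Hn X A u - Hn X A w) + Hn X A w| := by rw [sub_add_cancel]
          _ ≤ _ := abs_add_le _ _
      have h7 : η / 2 ≤ |Hn X A w| := by linarith
      rw [← sq_abs (Hn X A w)]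
      exact pow_le_pow_left₀ (by positivity) h7 2
    rw [intervalIntegral.integral_const, smul_eq_mul] at h2
    have h8 : (u + δ - (u - δ)) * (η / 2) ^ 2 = δ * η ^ 2 / 2 := by ring
    rw [h8] at h2
    exact h2.trans h1
  refine (measure_mono hsub).trans (key.trans (ENNReal.ofReal_le_ofReal ?_))
  have h1 := sq_int hX0 hK (show T / 4 ≤ 4 * T by linarith)
  rw [← hA] at h1
  have h2 : (4 * T - T / 4 + 20 * Real.exp X * (1 + X)) * (8 * (X + 6) / √K) ≤
      (4 * T + 20 * Real.exp X * (1 + X)) * (8 * (X + 6) / √K) := by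
    apply mul_le_mul_of_nonneg_right _ (by positivity)
    linarith
  rw [div_le_iff₀ hv]
  calc 2 * 8 * ∫ u in (T / 4)..(4 * T), Hn X A u ^ 2 ≤ 2 * 8 * ((4 * T + 20 * Real.exp X * (1 + X)) * (8 * (X + 6) / √K)) := by
        apply mul_le_mul_of_nonneg_left (h1.trans h2) (by norm_num)
    _ = _ := by
        rw [hδ]
        field_simp
        ring

/-- The main term. -/
theorem mm_side : ∃ C : ℝ, 0 < C ∧ ∀ X T t y : ℝ, 1 ≤ X → X ≤ Real.log T → 32 ≤ T → t ∈ Icc (T / 2) (3 * T) →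
    y ∈ Icc (T / 2) (3 * T) → IntervalIntegrable (MM X) volume t y ∧
      |X / (2 * Real.pi) * (∫ u in t..y, MM X u) - (y - t) * Real.log T / (2 * Real.pi)| ≤ C * |y - t| := by
  obtain ⟨C, hC, h⟩ := Pool.Agent.Helper57.UG.MM_main
  refine ⟨C + 2, by positivity, fun X T t y hX hXT hT ht hy => ?_⟩
  have hX0 : 0 < X := by linarith
  have hT0 : 0 < T := by linarith
  have hpi := Real.pi_pos
  have hpi3 := Real.pi_gt_three
  have hexp : Real.exp (X / 2) ≤ √T := by
    rw [Real.sqrt_eq_rpow, Real.rpow_def_of_pos hT0]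
    apply Real.exp_le_exp.2
    linarith
  have hsT : √T * √T = T := Real.mul_self_sqrt hT0.le
  have hb : ∀ u ∈ Icc (T / 2) (3 * T), |X * MM X u - Real.log T| ≤ C + 2 := by
    intro u hu
    have hu0 : 0 < u := by linarith [hu.1]
    have h1 := h X u hX (by rw [abs_of_pos hu0]; linarith [hu.1]) (by
      refine hexp.trans ?_
      have h2 : √T ≤ T := by
        rw [Real.sqrt_le_left hT0.le]
        nlinarith
      nlinarith [hu.1])
    rw [abs_of_pos hu0] at h1
    have h3 : |X * MM X u - Real.log u| ≤ C := by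
      have e : X * MM X u - Real.log u = X * (MM X u - Real.log u / X) := by field_simp
      rw [e, abs_mul, abs_of_pos hX0]
      calc X * |MM X u - Real.log u / X| ≤ X * (C / X) := mul_le_mul_of_nonneg_left h1 hX0.le
        _ = C := by field_simp
    have h4 : |Real.log u - Real.log T| ≤ 2 := by
      have e3 : Real.log (T / 2) ≤ Real.log u := Real.log_le_log (by positivity) hu.1
      have e4 : Real.log u ≤ Real.log (3 * T) := Real.log_le_log hu0 hu.2
      rw [Real.log_div hT0.ne' (by norm_num)] at e3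
      rw [Real.log_mul (by norm_num) hT0.ne'] at e4
      have e5 := Real.log_two_lt_d9
      have e6 : Real.log 3 ≤ 2 := by
        have := Real.log_le_sub_one_of_pos (show (0:ℝ) < 3 by norm_num)
        linarith
      rw [abs_le]
      constructor <;> linarith
    calc |X * MM X u - Real.log T| ≤ |X * MM X u - Real.log u| + |Real.log u - Real.log T| := abs_sub_le _ _ _
      _ ≤ _ := by linarith
  have hmem : ∀ u ∈ uIoc t y, u ∈ Icc (T / 2) (3 * T) := by
    intro u hu
    have h1 := uIoc_subset_uIcc hu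
    rw [mem_uIcc] at h1
    rcases h1 with h1 | h1
    · exact ⟨ht.1.trans h1.1, h1.2.trans hy.2⟩
    · exact ⟨hy.1.trans h1.1, h1.2.trans ht.2⟩
  have hm : Measurable (MM X) := Pool.Agent.Helper69.UG.MM_meas X hX0
  have iD : IntervalIntegrable (fun u => X * MM X u - Real.log T) volume t y := by
    have ic : IntervalIntegrable (fun _ : ℝ => C + 2) volume t y := intervalIntegrable_const
    refine ic.mono_fun' ((hm.const_mul X).sub_const _).aestronglyMeasurable ?_
    filter_upwards [ae_restrict_mem measurableSet_uIoc] with u hu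
    exact hb u (hmem u hu)
  have iM : IntervalIntegrable (MM X) volume t y := by
    have e : MM X = fun u => X⁻¹ * ((X * MM X u - Real.log T) + Real.log T) := by
      funext u
      rw [sub_add_cancel, ← mul_assoc, inv_mul_cancel₀ hX0.ne', one_mul]
    rw [e]
    exact (iD.add intervalIntegrable_const).const_mul _
  refine ⟨iM, ?_⟩
  have e : X / (2 * Real.pi) * (∫ u in t..y, MM X u) - (y - t) * Real.log T / (2 * Real.pi) =
      1 / (2 * Real.pi) * ∫ u in t..y, (X * MM X u - Real.log T) := by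
    rw [intervalIntegral.integral_sub (iM.const_mul X) intervalIntegrable_const, intervalIntegral.integral_const_mul,
      intervalIntegral.integral_const, smul_eq_mul]
    field_simp
  rw [e, abs_mul, abs_of_pos (by positivity)]
  have h5 : ‖∫ u in t..y, (X * MM X u - Real.log T)‖ ≤ (C + 2) * |y - t| :=
    intervalIntegral.norm_integral_le_of_norm_le_const fun u hu => hb u (hmem u hu)
  rw [Real.norm_eq_abs] at h5
  have h6 : 1 / (2 * Real.pi) ≤ 1 := by
    rw [div_le_one (by positivity)]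
    linarith
  calc _ ≤ 1 * |∫ u in t..y, (X * MM X u - Real.log T)| := mul_le_mul_of_nonneg_right h6 (abs_nonneg _)
    _ ≤ _ := by rw [one_mul]; exact h5

/-- The prime sum is the sum over the primes and the rest. -/
theorem pr_split {k T R L : ℝ} (t x : ℝ) (K : ℕ) : Pr (Xo k T R L) (t + x * sp T) = -Pp k T R L t x +
    1 / Real.pi * (Hn (Xo k T R L) ((Snp (Xo k T R L)).filter fun n => n ≤ K) (t + x * sp T) +
      Hn (Xo k T R L) ((Snp (Xo k T R L)).filter fun n => ¬ n ≤ K) (t + x * sp T)) := by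
  unfold Hn Pp Snp QX
  rw [Finset.sum_filter_add_sum_filter_not, Pool.Agent.Helper49.SO.PB.Pr_eq, neg_mul, neg_neg, ← mul_add,
    ← Finset.sum_filter_add_sum_filter_not (Finset.range (⌊Real.exp (Xo k T R L)⌋₊ + 1)) Nat.Prime]
  congr 2
  refine Finset.sum_congr rfl fun p hp => ?_
  rw [Finset.mem_filter] at hp
  have h1 : (1:ℝ) < p := by exact_mod_cast hp.2.one_lt
  have h2 : 0 < Real.log p := Real.log_pos h1
  have h3 : 0 < √(p:ℝ) := Real.sqrt_pos.2 (by linarith)
  congr 1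
  unfold pc pr
  rw [ArithmeticFunction.vonMangoldt_apply_prime hp.2]
  field_simp

/-- The scales. -/
theorem par {k d : ℝ} (hk : 0 < k) (hkd : k ≤ d / 100) (hd : 0 < d) (hd1 : d ≤ 1) {T R L : ℝ} (hT : 1 ≤ Real.log T)
    (hL : (2:ℝ) ^ (2 / d) ≤ L) (h : Rng d T R L) :
    1 ≤ L ∧ L ≤ Real.log T ∧ L / Real.log T ≤ Real.log T ^ (-d) ∧ 1 ≤ R ∧ R ≤ L ∧ 2 ≤ Ms k R L ∧ Ms k R L ≤ L ∧
      1 ≤ Xo k T R L ∧ Xo k T R L ≤ Real.log T / 2 := by
  obtain ⟨h1, h2, h3⟩ := h
  obtain ⟨l, hl⟩ : ∃ l, l = Real.log T := ⟨_, rfl⟩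
  rw [← hl] at hT h1 ⊢
  have hl0 : 0 < l := by linarith
  have hL1 : 1 ≤ L := by
    refine le_trans ?_ hL
    exact Real.one_le_rpow (by norm_num) (by positivity)
  have hL0 : 0 < L := by linarith
  have hLl : L ≤ l := by
    refine h1.trans ?_
    calc l ^ (1 - d) ≤ l ^ (1:ℝ) := Real.rpow_le_rpow_of_exponent_le hT (by linarith)
      _ = l := Real.rpow_one l
  have hLd : L / l ≤ l ^ (-d) := by
    rw [div_le_iff₀ hl0]
    calc L ≤ l ^ (1 - d) := h1
      _ = l ^ (-d) * l := by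
        rw [show (1 - d) = -d + 1 by ring, Real.rpow_add hl0, Real.rpow_one]
  have hR1 : 1 ≤ R := (Real.one_le_rpow hL1 hd.le).trans h2
  have hR0 : 0 < R := by linarith
  have hRL : R ≤ L := by
    refine h3.trans ?_
    calc L ^ (1 - d) ≤ L ^ (1:ℝ) := Real.rpow_le_rpow_of_exponent_le hL1 (by linarith)
      _ = L := Real.rpow_one L
  have hU : 1 ≤ L / R := by rwa [le_div_iff₀ hR0, one_mul]
  have hM2 : 2 ≤ Ms k R L := by
    unfold Ms
    have e1 : L ^ (-k) ≤ (L / R) ^ (-k) :=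
      Real.rpow_le_rpow_of_nonpos (by linarith) (div_le_self hL0.le hR1) (by linarith)
    calc (2:ℝ) = ((2:ℝ) ^ (2 / d)) ^ (d / 2) := by
          rw [← Real.rpow_mul (by norm_num)]
          have : 2 / d * (d / 2) = 1 := by field_simp
          rw [this, Real.rpow_one]
      _ ≤ L ^ (d / 2) := Real.rpow_le_rpow (by positivity) hL (by linarith)
      _ ≤ L ^ (d + -k) := Real.rpow_le_rpow_of_exponent_le hL1 (by linarith)
      _ = L ^ d * L ^ (-k) := Real.rpow_add hL0 _ _
      _ ≤ R * (L / R) ^ (-k) := by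
          apply mul_le_mul h2 e1 (by positivity) hR0.le
  have hML : Ms k R L ≤ L := by
    unfold Ms
    have e1 : (L / R) ^ (-k) ≤ 1 := Real.rpow_le_one_of_one_le_of_nonpos hU (by linarith)
    calc R * (L / R) ^ (-k) ≤ R * 1 := mul_le_mul_of_nonneg_left e1 hR0.le
      _ ≤ L := by linarith
  have hM0 : 0 < Ms k R L := by linarith
  refine ⟨hL1, hLl, hLd, hR1, hRL, hM2, hML, ?_, ?_⟩
  · unfold Xo XX
    rw [← hl, le_div_iff₀ hM0, one_mul]
    exact hML.trans hLl
  · unfold Xo XX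
    rw [← hl]
    exact div_le_div_of_nonneg_left hl0.le (by norm_num) hM2

/-- O3: main term and prime side -/
theorem inc_prime {k d : ℝ} (hk : 0 < k) (hkd : k ≤ d / 100) (hd : 0 < d) (hd1 : d ≤ 1) (B : ℝ) (hB : 0 < B) :
    ∃ c C T₀ : ℝ, 0 < c ∧ 1 ≤ C ∧ ∀ T R L : ℝ, T₀ ≤ T → C ≤ L → Rng d T R L →
    ∃ E : Set ℝ, volume E ≤ ENNReal.ofReal (C * L ^ (-B) * T) ∧ ∀ t ∈ Icc T (2 * T), t ∉ E → ∀ x : ℝ, |x| ≤ L →
      |1 / (Ms k R L * sp T) * (∫ u in t..(t + x * sp T), (MM (Xo k T R L) u - SS (Xo k T R L) u)) -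
        (x + (Pp k T R L t x - Pp k T R L t 0))| ≤ C * L ^ (-c) := by
  obtain ⟨C1, hC1, hmm⟩ := mm_side
  have hd2 : 0 < d / 2 := by linarith
  have t1 : ∀ᶠ l : ℝ in atTop, 98304 * (l ^ (5 + B) * Real.exp (-(l ^ (d / 2) / 2))) ≤ 1 := by
    have h1 : Tendsto (fun y : ℝ => y ^ ((5 + B) * (2 / d)) * Real.exp (-(1 / 2) * y)) atTop (𝓝 0) :=
      tendsto_rpow_mul_exp_neg_mul_atTop_nhds_zero _ _ (by norm_num)
    have h2 := h1.comp (tendsto_rpow_atTop hd2)
    have h3 := h2.const_mul 98304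
    rw [mul_zero] at h3
    have h4 := h3.eventually_le_const (show (0:ℝ) < 1 by norm_num)
    filter_upwards [h4, eventually_gt_atTop 0] with l hl hl0
    rw [Function.comp_apply] at hl
    have e1 : (l ^ (d / 2)) ^ ((5 + B) * (2 / d)) = l ^ (5 + B) := by
      rw [← Real.rpow_mul hl0.le]
      congr 1
      field_simp
    rw [e1] at hl
    have e2 : -(1 / 2) * l ^ (d / 2) = -(l ^ (d / 2) / 2) := by ring
    rwa [e2] at hl
  obtain ⟨T₀, hT₀⟩ := eventually_atTop.mp ((Real.tendsto_log_atTop.eventually (t1.and (eventually_ge_atTop 12))).and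
    (eventually_ge_atTop 32))
  refine ⟨d / 2, 7 * C1 + 57 + (2:ℝ) ^ (2 / d), T₀, hd2, ?_, fun T R L hT hL hR => ?_⟩
  · have : 0 < (2:ℝ) ^ (2 / d) := by positivity
    linarith
  obtain ⟨⟨hexp, hl12⟩, hT32⟩ := hT₀ T hT
  have hC0 : 0 < (2:ℝ) ^ (2 / d) := by positivity
  obtain ⟨hL1, hLl, hLd, hR1, hRL, hM2, hML, hX1, hXl⟩ := par hk hkd hd hd1 (T := T) (R := R) (L := L) (by linarith)
    (by linarith) hR
  obtain ⟨X, hX⟩ : ∃ X, X = Xo k T R L := ⟨_, rfl⟩
  obtain ⟨l, hl⟩ : ∃ l, l = Real.log T := ⟨_, rfl⟩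
  rw [← hX, ← hl] at hXl
  rw [← hX] at hX1
  rw [← hl] at hl12 hLl hLd hexp
  have hl0 : 0 < l := by linarith
  have hL0 : 0 < L := by linarith
  have hT0 : 0 < T := by linarith
  have hX0 : 0 < X := by linarith
  have hpi := Real.pi_pos
  have hpi3 := Real.pi_gt_three
  have hpi4 := Real.pi_lt_d2
  -- the cut
  obtain ⟨K, hK⟩ : ∃ K : ℕ, K = ⌊Real.exp (l ^ (d / 2))⌋₊ := ⟨_, rfl⟩
  have hy0 : 0 ≤ l ^ (d / 2) := by positivity
  have he1 : 1 ≤ Real.exp (l ^ (d / 2)) := Real.one_le_exp hy0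
  have hK1 : 1 ≤ K := by rw [hK, Nat.one_le_floor_iff]; exact he1
  have hKR : (1:ℝ) ≤ K := by exact_mod_cast hK1
  have hKe : (K:ℝ) ≤ Real.exp (l ^ (d / 2)) := by rw [hK]; exact Nat.floor_le (Real.exp_pos _).le
  have hKlog : Real.log K ≤ l ^ (d / 2) := by
    rw [Real.log_le_iff_le_exp (by linarith)]
    exact hKe
  have hK2 : Real.exp (l ^ (d / 2)) / 2 ≤ K := by
    have h1 := Nat.lt_floor_add_one (Real.exp (l ^ (d / 2)))
    rw [← hK] at h1
    linarith
  have hKs : Real.exp (l ^ (d / 2) / 2) / 2 ≤ √K := by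
    apply Real.le_sqrt_of_sq_le
    have e1 : (Real.exp (l ^ (d / 2) / 2) / 2) ^ 2 = Real.exp (l ^ (d / 2)) / 4 := by
      rw [div_pow, ← Real.exp_nat_mul]
      congr 1
      · congr 1
        push_cast
        ring
      · norm_num
    rw [e1]
    have := Real.exp_pos (l ^ (d / 2))
    linarith
  have hKs0 : 0 < √(K:ℝ) := Real.sqrt_pos.2 (by linarith)
  have hη : (0:ℝ) < 1 / l := by positivity
  have hη1 : 1 / l ≤ 1 := by
    rw [div_le_one hl0]
    linarith
  have hE := exc (X := X) (T := T) (η := 1 / l) (K := K) hX1 hK1 hT32 hη hη1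
  refine ⟨{t : ℝ | t ∈ Icc T (2 * T) ∧ ∃ u, |u - t| ≤ 7 ∧ 1 / l < |Hn X ((Snp X).filter fun n => ¬ n ≤ K) u|},
    hE.trans (ENNReal.ofReal_le_ofReal ?_), ?_⟩
  · -- the measure
    have a1 : Real.exp X * (1 + X) ≤ T := by
      have b1 : Real.exp X ≤ Real.exp (l / 2) := Real.exp_le_exp.2 hXl
      have b2 : 1 + X ≤ Real.exp (l / 2) := by
        have := Real.add_one_le_exp (l / 2)
        linarith
      calc Real.exp X * (1 + X) ≤ Real.exp (l / 2) * Real.exp (l / 2) := by gcongr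
        _ = T := by
          rw [← Real.exp_add, add_halves, hl, Real.exp_log hT0]
    have a2 : (X + 6) ^ 2 ≤ l ^ 2 := pow_le_pow_left₀ (by positivity) (by linarith) 2
    have a3 : 1 / √(K:ℝ) ≤ 2 * Real.exp (-(l ^ (d / 2) / 2)) := by
      have b1 : 0 < Real.exp (l ^ (d / 2) / 2) := Real.exp_pos _
      rw [div_le_iff₀ hKs0, Real.exp_neg]
      calc (1:ℝ) = 2 * (Real.exp (l ^ (d / 2) / 2))⁻¹ * (Real.exp (l ^ (d / 2) / 2) / 2) := by field_simp
        _ ≤ _ := mul_le_mul_of_nonneg_left hKs (by positivity)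
    have a4 : l ^ (-B) ≤ L ^ (-B) := Real.rpow_le_rpow_of_nonpos hL0 hLl (by linarith)
    have a5 : 98304 * l ^ (5:ℝ) * Real.exp (-(l ^ (d / 2) / 2)) ≤ l ^ (-B) := by
      have b1 : l ^ (5 + B) = l ^ (5:ℝ) * l ^ B := Real.rpow_add hl0 _ _
      have b2 : 0 < l ^ B := Real.rpow_pos_of_pos hl0 _
      rw [Real.rpow_neg hl0.le, ← one_div, le_div_iff₀ b2]
      rw [b1] at hexp
      linarith
    have b5 : l ^ (5:ℝ) = l ^ 2 * l ^ 3 := by
      rw [show (5:ℝ) = ((5:ℕ):ℝ) by norm_num, Real.rpow_natCast]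
      ring
    calc 2048 * (X + 6) ^ 2 / ((1 / l) ^ 3 * √K) * (4 * T + 20 * Real.exp X * (1 + X)) ≤
          2048 * l ^ 2 / ((1 / l) ^ 3 * √K) * (24 * T) := by
          apply mul_le_mul
          · apply div_le_div_of_nonneg_right _ (by positivity)
            linarith
          · linarith
          · positivity
          · positivity
      _ = 49152 * (l ^ 2 * l ^ 3) * (1 / √(K:ℝ)) * T := by
          field_simp
          norm_num
      _ ≤ 49152 * (l ^ 2 * l ^ 3) * (2 * Real.exp (-(l ^ (d / 2) / 2))) * T := by gcongr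
      _ = 98304 * l ^ (5:ℝ) * Real.exp (-(l ^ (d / 2) / 2)) * T := by rw [b5]; ring
      _ ≤ l ^ (-B) * T := mul_le_mul_of_nonneg_right a5 hT0.le
      _ ≤ L ^ (-B) * T := mul_le_mul_of_nonneg_right a4 hT0.le
      _ ≤ (7 * C1 + 57 + (2:ℝ) ^ (2 / d)) * L ^ (-B) * T := by
          have b6 : 0 < L ^ (-B) * T := mul_pos (Real.rpow_pos_of_pos hL0 _) hT0
          nlinarith
  · -- the estimate
    intro t ht htE x hx
    obtain ⟨A, hA⟩ : ∃ A, A = (Snp X).filter fun n => ¬ n ≤ K := ⟨_, rfl⟩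
    obtain ⟨A', hA'⟩ : ∃ A', A' = (Snp X).filter fun n => n ≤ K := ⟨_, rfl⟩
    have hs : sp T = 2 * Real.pi / l := by rw [hl]; rfl
    have hs0 : 0 < sp T := by rw [hs]; positivity
    obtain ⟨y, hy⟩ : ∃ y, y = t + x * sp T := ⟨_, rfl⟩
    have hyt : |y - t| ≤ 2 * Real.pi * (L / l) := by
      rw [hy, add_sub_cancel_left, abs_mul, abs_of_pos hs0, hs]
      calc |x| * (2 * Real.pi / l) ≤ L * (2 * Real.pi / l) := mul_le_mul_of_nonneg_right hx (by positivity)
        _ = _ := by ring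
    have hyt7 : |y - t| ≤ 7 := by
      refine hyt.trans ?_
      have : L / l ≤ 1 := (div_le_one hl0).2 hLl
      nlinarith
    obtain ⟨hy1, hy2⟩ := abs_le.1 hyt7
    have hl1 : |Hn X A y| ≤ 1 / l := by
      by_contra hcon
      push Not at hcon
      exact htE ⟨ht, y, hyt7, by rw [← hA]; exact hcon⟩
    have hl2 : |Hn X A t| ≤ 1 / l := by
      by_contra hcon
      push Not at hcon
      exact htE ⟨ht, t, by rw [sub_self, abs_zero]; norm_num, by rw [← hA]; exact hcon⟩
    have hA'S : A' ⊆ Finset.range (⌊Real.exp X⌋₊ + 1) := by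
      rw [hA']
      exact (Finset.filter_subset _ _).trans (Snp_sub X)
    have hsm : |Hn X A' y - Hn X A' t| ≤ |y - t| * (4 * (l ^ (d / 2) + 6)) := by
      refine (diff_le hX0 hA'S t y).trans (mul_le_mul_of_nonneg_left ?_ (abs_nonneg _))
      rw [hA']
      refine (small_le hK1).trans ?_
      linarith
    obtain ⟨iM, hmain⟩ := hmm X T t y hX1 (by rw [← hl]; linarith) hT32 ⟨by linarith [ht.1], by linarith [ht.2]⟩
      ⟨by linarith [ht.1], by linarith [ht.2]⟩
    have iS : IntervalIntegrable (SS X) volume t y := (Pool.Agent.Helper69.UG.SS_cont X).intervalIntegrable _ _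
    have hP := Pool.Agent.Helper49.SO.PB.Pr_sub hX0 t y
    have hp1 := pr_split (k := k) (T := T) (R := R) (L := L) t x K
    have hp0 := pr_split (k := k) (T := T) (R := R) (L := L) t 0 K
    rw [zero_mul, add_zero] at hp0
    rw [← hX, ← hA, ← hA'] at hp1 hp0
    rw [← hy] at hp1
    have hpre : 1 / (Ms k R L * sp T) = X / (2 * Real.pi) := by
      have hM0 : 0 < Ms k R L := by linarith
      rw [hX, hs]
      unfold Xo XX
      rw [← hl]
      field_simp
    have hyx : (y - t) * l / (2 * Real.pi) = x := by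
      rw [hy, add_sub_cancel_left, hs]
      field_simp
    rw [← hl, hyx] at hmain
    rw [← hX, ← hy, intervalIntegral.integral_sub iM iS, hpre, mul_sub, ← hP]
    have hid : X / (2 * Real.pi) * (∫ u in t..y, MM X u) - (Pr X y - Pr X t) - (x + (Pp k T R L t x - Pp k T R L t 0)) =
        (X / (2 * Real.pi) * (∫ u in t..y, MM X u) - x) -
          (1 / Real.pi * (Hn X A' y - Hn X A' t) + (1 / Real.pi * Hn X A y - 1 / Real.pi * Hn X A t)) := by
      rw [hp1, hp0]
      ring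
    rw [hid]
    have hpi1 : 1 / Real.pi ≤ 1 / 3 := one_div_le_one_div_of_le (by norm_num) hpi3.le
    have hpi0 : 0 < 1 / Real.pi := by positivity
    have c1 : |1 / Real.pi * (Hn X A' y - Hn X A' t)| ≤ 56 * l ^ (-(d / 2)) := by
      rw [abs_mul, abs_of_pos hpi0]
      have b1 : l ^ (-d) * l ^ (d / 2) = l ^ (-(d / 2)) := by
        rw [← Real.rpow_add hl0]
        congr 1
        ring
      have b2 : 1 ≤ l ^ (d / 2) := Real.one_le_rpow (by linarith) hd2.le
      calc 1 / Real.pi * |Hn X A' y - Hn X A' t| ≤ 1 / Real.pi * (2 * Real.pi * (L / l) * (4 * (l ^ (d / 2) + 6))) := by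
            apply mul_le_mul_of_nonneg_left _ hpi0.le
            exact hsm.trans (mul_le_mul_of_nonneg_right hyt (by positivity))
        _ = 8 * (L / l) * (l ^ (d / 2) + 6) := by
            field_simp
            ring
        _ ≤ 8 * l ^ (-d) * (l ^ (d / 2) + 6) := by gcongr
        _ ≤ 8 * l ^ (-d) * (7 * l ^ (d / 2)) := by
            apply mul_le_mul_of_nonneg_left _ (by positivity)
            linarith
        _ = 56 * (l ^ (-d) * l ^ (d / 2)) := by ring
        _ = _ := by rw [b1]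
    have c2 : ∀ z, |Hn X A z| ≤ 1 / l → |1 / Real.pi * Hn X A z| ≤ 1 / 3 * l ^ (-(d / 2)) := by
      intro z hz
      rw [abs_mul, abs_of_pos hpi0]
      have b1 : 1 / l ≤ l ^ (-(d / 2)) := by
        rw [one_div, ← Real.rpow_neg_one]
        exact Real.rpow_le_rpow_of_exponent_le (by linarith) (by linarith)
      exact mul_le_mul hpi1 (hz.trans b1) (abs_nonneg _) (by norm_num)
    have c3 : C1 * |y - t| ≤ 7 * C1 * l ^ (-(d / 2)) := by
      have b1 : l ^ (-d) ≤ l ^ (-(d / 2)) := Real.rpow_le_rpow_of_exponent_le (by linarith) (by linarith)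
      have b2 : |y - t| ≤ 7 * l ^ (-(d / 2)) := by
        calc |y - t| ≤ 2 * Real.pi * (L / l) := hyt
          _ ≤ 2 * Real.pi * l ^ (-(d / 2)) := mul_le_mul_of_nonneg_left (hLd.trans b1) (by positivity)
          _ ≤ 7 * l ^ (-(d / 2)) := by
            apply mul_le_mul_of_nonneg_right _ (by positivity)
            linarith
      nlinarith
    have c4 : l ^ (-(d / 2)) ≤ L ^ (-(d / 2)) := Real.rpow_le_rpow_of_nonpos hL0 hLl (by linarith)
    have c5 : 0 < L ^ (-(d / 2)) := Real.rpow_pos_of_pos hL0 _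
    have d1 := c2 y hl1
    have d2 := c2 t hl2
    calc _ ≤ |X / (2 * Real.pi) * (∫ u in t..y, MM X u) - x| +
          |1 / Real.pi * (Hn X A' y - Hn X A' t) + (1 / Real.pi * Hn X A y - 1 / Real.pi * Hn X A t)| := abs_sub _ _
      _ ≤ C1 * |y - t| + (|1 / Real.pi * (Hn X A' y - Hn X A' t)| +
          (|1 / Real.pi * Hn X A y| + |1 / Real.pi * Hn X A t|)) :=
          add_le_add hmain ((abs_add_le _ _).trans (by
            have := abs_sub (1 / Real.pi * Hn X A y) (1 / Real.pi * Hn X A t)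
            linarith))
      _ ≤ 7 * C1 * l ^ (-(d / 2)) + (56 * l ^ (-(d / 2)) + (1 / 3 * l ^ (-(d / 2)) + 1 / 3 * l ^ (-(d / 2)))) := by
          linarith
      _ ≤ (7 * C1 + 57) * l ^ (-(d / 2)) := by
          have : 0 < l ^ (-(d / 2)) := Real.rpow_pos_of_pos hl0 _
          linarith
      _ ≤ (7 * C1 + 57) * L ^ (-(d / 2)) := mul_le_mul_of_nonneg_left c4 (by positivity)
      _ ≤ _ := by
          apply mul_le_mul_of_nonneg_right _ c5.le
          linarith

end Pool.Agent.Helper93.OP
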